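import Pool.Agent.Work.MP_8df50c_lc.NumOf

set_option autoImplicit false

/-!
Sanity check (not used in the main proof): the cohesive power by a cohesive set is a field.
-/

namespace Pool.Agent.Work.MP_8df50c_lc

theorem almostAll_neBot {C : Set ℕ} (hC : C.Infinite) : (almostAll C).NeBot := by
  rw [almostAll, Filter.neBot_iff]
  intro h
  apply hC
  have h1 : (∅ : Set ℕ) ∈ Filter.cofinite ⊓ Filter.principal C := by rw [h]; trivial
  rw [Filter.mem_inf_principal] at h1
  have h2 := Filter.mem_cofinite.mp h1
  convert h2 using 1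
  ext x
  simp

theorem isField_cohesivePower {A : Type*} [Field A] (P : ComputableField A) {C : Set ℕ}
    (hC : Cohesive C) : IsField (cohesivePower P C) := by
  have hne := almostAll_neBot hC.1
  refine ⟨⟨0, 1, zero_ne_one⟩, mul_comm, ?_⟩
  rintro ⟨g, p, hp, φ, rfl, hφ⟩ hg0
  -- by cohesiveness `φ` is nonzero almost everywhere
  have hre : REPred (fun n => n ∈ {i | P.code 0 ∈ p i}) := by
    have h1 : Partrec (fun i : ℕ => (p i).bind fun x =>
        (cond (decide (x = P.code 0)) (Part.some ()) Part.none : Part Unit)) := by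
      refine hp.bind ?_
      have h2 : Computable (fun y : ℕ × ℕ => decide (y.2 = P.code 0)) :=
        Computable₂.comp computable_eqb Computable.snd (Computable.const _)
      have h3 := Partrec.cond h2 (Computable.const ()).partrec
        (g := fun _ => (Part.none : Part Unit)) Partrec.none
      exact h3
    refine h1.of_eq fun i => ?_
    apply Part.ext
    intro u
    rw [Part.mem_bind_iff, Part.mem_assert_iff]
    constructor
    · rintro ⟨x, hx, hu⟩
      by_cases h : x = P.code 0
      · subst h
        exact ⟨hx, Part.mem_some _⟩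
      · simp [h] at hu
    · rintro ⟨h, -⟩
      refine ⟨_, h, ?_⟩
      simp
  have hnz : ∀ᶠ i in almostAll C, φ i ≠ 0 := by
    rcases hC.2 _ hre with h | h
    · exfalso
      apply hg0
      apply Subtype.ext
      apply Filter.Germ.coe_eq.mpr
      have h1 : ∀ᶠ i in almostAll C, i ∈ {i | P.code 0 ∈ p i} := by
        rw [almostAll, Filter.eventually_inf_principal, Filter.eventually_cofinite]
        convert h using 1
        ext x
        simp
      filter_upwards [h1, hφ] with i h2 h3
      apply P.code_injective
      exact Part.mem_unique h3 h2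
    · have h1 : ∀ᶠ i in almostAll C, ¬ (i ∈ {i | P.code 0 ∈ p i}) := by
        rw [almostAll, Filter.eventually_inf_principal, Filter.eventually_cofinite]
        convert h using 1
        ext x
        simp
      filter_upwards [h1, hφ] with i h2 h3 h4
      apply h2
      rw [← h4]
      exact h3
  obtain ⟨N, hN, hN'⟩ := exists_num P
  have hR : Partrec₂ (fun (c n : ℕ) => (Part.some (N.eqb (N.mul c n) (N.idx 1)) : Part Bool)) := by
    have h1 := Computable₂.comp N.eqb_comp N.mul_comp (Computable.const (N.idx 1))
    exact Computable.partrec h1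
  have hinv : Partrec (fun i : ℕ => (p i).bind fun c =>
      (Nat.rfind fun n => (Part.some (N.eqb (N.mul c n) (N.idx 1)) : Part Bool)).map
        fun n => P.code (N.ν n)) := by
    refine hp.bind ?_
    have h1 : Partrec (fun y : ℕ × ℕ =>
        Nat.rfind fun n => (Part.some (N.eqb (N.mul y.2 n) (N.idx 1)) : Part Bool)) := by
      have h2 := (Partrec.rfind hR).comp (Computable.snd (α := ℕ) (β := ℕ))
      exact h2
    have h3 := h1.map (hN.comp Computable.snd).to₂
    exact h3
  refine ⟨⟨((fun i => (φ i)⁻¹ : ℕ → A) : (almostAll C).Germ A), _, hinv, _, rfl, ?_⟩, ?_⟩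
  · filter_upwards [hφ, hnz] with i h1 h2
    rw [Part.mem_bind_iff]
    refine ⟨_, h1, ?_⟩
    rw [Part.mem_map_iff]
    have hex : ∃ n, N.eqb (N.mul (P.code (φ i)) n) (N.idx 1) = true := by
      refine ⟨P.code (φ i)⁻¹, ?_⟩
      rw [N.eqb_spec, N.mul_spec, hN', hN', N.ν_idx]
      exact mul_inv_cancel₀ h2
    obtain ⟨n, hn, -⟩ := Nat.rfind_min' (p := fun n => N.eqb (N.mul (P.code (φ i)) n) (N.idx 1))
      hex.choose_spec
    refine ⟨n, hn, ?_⟩
    have h3 := Nat.rfind_spec hn
    have h4 : N.eqb (N.mul (P.code (φ i)) n) (N.idx 1) = true := by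
      simpa using h3
    rw [N.eqb_spec, N.mul_spec, hN', N.ν_idx] at h4
    congr 1
    exact eq_inv_of_mul_eq_one_right h4
  · apply Subtype.ext
    apply Filter.Germ.coe_eq.mpr
    filter_upwards [hnz] with i h1
    exact mul_inv_cancel₀ h1

end Pool.Agent.Work.MP_8df50c_lc
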