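import Pool.Agent.Work.MP_8df50c_lc.Comp

set_option autoImplicit false

/-!
An abstract result on computably enumerable subgroups invariant under an endomorphism.
-/

namespace Pool.Agent.Work.MP_8df50c_lc

/-- A numbered abelian group with an endomorphism and a c.e. invariant subgroup. -/
structure Sys (G : Type*) [AddCommGroup G] where
  φ : G →+ G
  L : AddSubgroup G
  φ_mem : ∀ x ∈ L, φ x ∈ L
  ν : ℕ → G
  surj : Function.Surjective ν
  add : ℕ → ℕ → ℕ
  add_comp : Computable₂ add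
  add_spec : ∀ m n, ν (add m n) = ν m + ν n
  fr : ℕ → ℕ → ℕ
  fr_comp : Computable₂ fr
  fr_spec : ∀ n x, ν (fr n x) = φ^[n] (ν x)
  eqb : ℕ → ℕ → Bool
  eqb_comp : Computable₂ eqb
  eqb_spec : ∀ m n, eqb m n = true ↔ ν m = ν n
  D : ℕ → ℕ → Bool
  D_comp : Computable₂ D
  D_spec : ∀ x, ν x ∈ L ↔ ∃ w, D x w = true

namespace Sys

variable {G : Type*} [AddCommGroup G] (S : Sys G)

theorem iter_mem {x : G} (hx : x ∈ S.L) (n : ℕ) : S.φ^[n] x ∈ S.L := by
  induction n with
  | zero => exact hx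
  | succ n ih => rw [Function.iterate_succ_apply']; exact S.φ_mem _ ih

theorem iter_mem_of_le {x : G} {m n : ℕ} (h : m ≤ n) (hx : S.φ^[m] x ∈ S.L) :
    S.φ^[n] x ∈ S.L := by
  obtain ⟨k, rfl⟩ := Nat.exists_eq_add_of_le h
  rw [add_comm, Function.iterate_add_apply]
  exact S.iter_mem hx k

theorem iter_add (n : ℕ) (x y : G) : S.φ^[n] (x + y) = S.φ^[n] x + S.φ^[n] y := by
  induction n with
  | zero => rfl
  | succ n ih => rw [Function.iterate_succ_apply', ih, map_add, ← Function.iterate_succ_apply' S.φ,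
      ← Function.iterate_succ_apply' S.φ]

theorem iter_neg (n : ℕ) (x : G) : S.φ^[n] (-x) = -S.φ^[n] x := by
  induction n with
  | zero => rfl
  | succ n ih => rw [Function.iterate_succ_apply', ih, map_neg, ← Function.iterate_succ_apply' S.φ]

theorem iter_sub (n : ℕ) (x y : G) : S.φ^[n] (x - y) = S.φ^[n] x - S.φ^[n] y := by
  rw [sub_eq_add_neg, iter_add, iter_neg, ← sub_eq_add_neg]

/-- `x` has height at least `h`. -/
def High (h : ℕ) (x : G) : Prop := ∃ z : G, x - S.φ^[h] z ∈ S.L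

theorem High.mono {h h' : ℕ} (hh : h' ≤ h) {x : G} (hx : S.High h x) : S.High h' x := by
  obtain ⟨z, hz⟩ := hx
  obtain ⟨k, rfl⟩ := Nat.exists_eq_add_of_le hh
  exact ⟨S.φ^[k] z, by rw [← Function.iterate_add_apply]; exact hz⟩

/-- Case 1: an element outside `L` of infinite height. -/
theorem case1 {x : G} (hx : x ∉ S.L) (hh : ∀ h, S.High h x) :
    ∃ ψ : ℕ → ℕ, Computable ψ ∧ ∀ n, ∀ s, n ≤ s → S.φ^[n] (S.ν (ψ s)) ∉ S.L := by
  obtain ⟨x0, rfl⟩ := S.surj x
  -- `w = (z, (b, u))`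
  have hex : ∀ h : ℕ, ∃ w : ℕ, (S.D w.unpair.2.unpair.1 w.unpair.2.unpair.2 &&
      S.eqb x0 (S.add (S.fr h w.unpair.1) w.unpair.2.unpair.1)) = true := by
    intro h
    obtain ⟨z, hz⟩ := hh h
    obtain ⟨zi, rfl⟩ := S.surj z
    obtain ⟨b, hb⟩ := S.surj (S.ν x0 - S.φ^[h] (S.ν zi))
    obtain ⟨u, hu⟩ := (S.D_spec b).mp (by rw [hb]; exact hz)
    refine ⟨Nat.pair zi (Nat.pair b u), ?_⟩
    simp only [Nat.unpair_pair, Bool.and_eq_true]
    refine ⟨hu, ?_⟩
    rw [S.eqb_spec, S.add_spec, S.fr_spec, hb]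
    abel
  have hcomp : Computable₂ (fun h w : ℕ => (S.D w.unpair.2.unpair.1 w.unpair.2.unpair.2 &&
      S.eqb x0 (S.add (S.fr h w.unpair.1) w.unpair.2.unpair.1))) := by
    have u1 : Computable (fun p : ℕ × ℕ => p.2.unpair) := Computable.unpair.comp Computable.snd
    have u2 : Computable (fun p : ℕ × ℕ => p.2.unpair.2.unpair) :=
      Computable.unpair.comp (Computable.snd.comp u1)
    exact (Primrec.and.to_comp.comp
      (S.D_comp.comp (Computable.fst.comp u2) (Computable.snd.comp u2))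
      (S.eqb_comp.comp (Computable.const x0) (S.add_comp.comp
        (S.fr_comp.comp Computable.fst (Computable.fst.comp u1)) (Computable.fst.comp u2))))
  refine ⟨fun h => (Nat.find (hex h)).unpair.1,
    Computable.fst.comp (Computable.unpair.comp (computable_find hcomp hex)), ?_⟩
  intro n s hns hmem
  have h1 := Nat.find_spec (hex s)
  rw [Bool.and_eq_true] at h1
  obtain ⟨h2, h3⟩ := h1
  rw [S.eqb_spec, S.add_spec, S.fr_spec] at h3
  apply hx
  rw [h3]
  apply S.L.add_mem
  · exact S.iter_mem_of_le hns hmem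
  · exact (S.D_spec _).mpr ⟨_, h2⟩

/-- Limit of least witnesses. -/
theorem find_limit (Q : ℕ → ℕ → Bool) (hinf : ∃ c, ∀ t, Q c t = true)
    (hs : ∀ s, ∃ c, allLt (Q c) s = true) :
    ∃ c, (∀ t, Q c t = true) ∧ ∃ s0, ∀ s, s0 ≤ s → Nat.find (hs s) = c := by
  classical
  refine ⟨Nat.find hinf, Nat.find_spec hinf, ?_⟩
  have h1 : ∀ c, c < Nat.find hinf → ∃ t, Q c t ≠ true := by
    intro c hc
    have := Nat.find_min hinf hc
    push Not at this
    exact this
  choose! t ht using h1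
  refine ⟨(Finset.range (Nat.find hinf)).sup t + 1, fun s hs' => ?_⟩
  apply le_antisymm
  · apply Nat.find_min'
    rw [allLt_iff]
    exact fun t _ => Nat.find_spec hinf t
  · by_contra hlt
    push Not at hlt
    have h2 := Nat.find_spec (hs s)
    rw [allLt_iff] at h2
    apply ht _ hlt
    apply h2
    have : t (Nat.find (hs s)) ≤ (Finset.range (Nat.find hinf)).sup t :=
      Finset.le_sup (f := t) (Finset.mem_range.mpr hlt)
    omega

/-- The test: `p = (e, (y, M))`, `c = ((m, a), (N, u))`, `t = ((n, z), (b, w))`. -/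
def Q (p : ℕ × ℕ × ℕ) (c t : ℕ) : Bool :=
  (decide (p.2.2 ≤ c.unpair.1.unpair.1) &&
    S.D (S.fr c.unpair.2.unpair.1 p.2.1) c.unpair.2.unpair.2) &&
  ((!(decide (t.unpair.1.unpair.1 < c.unpair.2.unpair.1) &&
      S.D t.unpair.2.unpair.1 t.unpair.2.unpair.2) ||
    !(S.eqb (S.fr t.unpair.1.unpair.1 p.2.1)
      (S.add (S.fr c.unpair.1.unpair.1 t.unpair.1.unpair.2) t.unpair.2.unpair.1))) &&
   !(S.D (S.fr (c.unpair.1.unpair.1 + p.1 + 1) c.unpair.1.unpair.2) t.unpair.2.unpair.2))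

theorem Q_comp : Computable (fun x : ((ℕ × ℕ × ℕ) × ℕ) × ℕ => S.Q x.1.1 x.1.2 x.2) := by
  unfold Q
  have p1 : Computable (fun x : ((ℕ × ℕ × ℕ) × ℕ) × ℕ => x.1.1.1) :=
    Computable.fst.comp (Computable.fst.comp Computable.fst)
  have p2 : Computable (fun x : ((ℕ × ℕ × ℕ) × ℕ) × ℕ => x.1.1.2.1) :=
    Computable.fst.comp (Computable.snd.comp (Computable.fst.comp Computable.fst))
  have p3 : Computable (fun x : ((ℕ × ℕ × ℕ) × ℕ) × ℕ => x.1.1.2.2) :=
    Computable.snd.comp (Computable.snd.comp (Computable.fst.comp Computable.fst))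
  have c0 : Computable (fun x : ((ℕ × ℕ × ℕ) × ℕ) × ℕ => x.1.2.unpair) :=
    Computable.unpair.comp (Computable.snd.comp Computable.fst)
  have c1 : Computable (fun x : ((ℕ × ℕ × ℕ) × ℕ) × ℕ => x.1.2.unpair.1.unpair) :=
    Computable.unpair.comp (Computable.fst.comp c0)
  have c2 : Computable (fun x : ((ℕ × ℕ × ℕ) × ℕ) × ℕ => x.1.2.unpair.2.unpair) :=
    Computable.unpair.comp (Computable.snd.comp c0)
  have t0 : Computable (fun x : ((ℕ × ℕ × ℕ) × ℕ) × ℕ => x.2.unpair) :=
    Computable.unpair.comp Computable.snd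
  have t1 : Computable (fun x : ((ℕ × ℕ × ℕ) × ℕ) × ℕ => x.2.unpair.1.unpair) :=
    Computable.unpair.comp (Computable.fst.comp t0)
  have t2 : Computable (fun x : ((ℕ × ℕ × ℕ) × ℕ) × ℕ => x.2.unpair.2.unpair) :=
    Computable.unpair.comp (Computable.snd.comp t0)
  have hle : Computable₂ (fun m n : ℕ => decide (m ≤ n)) := Primrec.nat_le.decide.to_comp
  have hlt : Computable₂ (fun m n : ℕ => decide (m < n)) := Primrec.nat_lt.decide.to_comp
  have hand : Computable₂ (fun a b : Bool => a && b) := Primrec.and.to_comp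
  have hor : Computable₂ (fun a b : Bool => a || b) := Primrec.or.to_comp
  have hnot : Computable (fun a : Bool => !a) := Primrec.not.to_comp
  have hadd : Computable₂ (fun m n : ℕ => m + n) := Primrec.nat_add.to_comp
  exact hand.comp
    (hand.comp (hle.comp p3 (Computable.fst.comp c1))
      (S.D_comp.comp (S.fr_comp.comp (Computable.fst.comp c2) p2) (Computable.snd.comp c2)))
    (hand.comp
      (hor.comp
        (hnot.comp (hand.comp (hlt.comp (Computable.fst.comp t1) (Computable.fst.comp c2))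
          (S.D_comp.comp (Computable.fst.comp t2) (Computable.snd.comp t2))))
        (hnot.comp (S.eqb_comp.comp (S.fr_comp.comp (Computable.fst.comp t1) p2)
          (S.add_comp.comp (S.fr_comp.comp (Computable.fst.comp c1) (Computable.snd.comp t1))
            (Computable.fst.comp t2)))))
      (hnot.comp (S.D_comp.comp (S.fr_comp.comp
        (Computable.succ.comp (hadd.comp (Computable.fst.comp c1) p1)) (Computable.snd.comp c1))
          (Computable.snd.comp t2))))

theorem Q_iff (p : ℕ × ℕ × ℕ) (c : ℕ) : (∀ t, S.Q p c t = true) ↔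
    (p.2.2 ≤ c.unpair.1.unpair.1 ∧
      S.D (S.fr c.unpair.2.unpair.1 p.2.1) c.unpair.2.unpair.2 = true) ∧
    (∀ n < c.unpair.2.unpair.1, ¬ S.High c.unpair.1.unpair.1 (S.φ^[n] (S.ν p.2.1))) ∧
    S.φ^[c.unpair.1.unpair.1 + p.1 + 1] (S.ν c.unpair.1.unpair.2) ∉ S.L := by
  constructor
  · intro h
    refine ⟨?_, ?_, ?_⟩
    · have := h 0
      simp only [Q, Bool.and_eq_true, decide_eq_true_eq] at this
      exact this.1
    · rintro n hn ⟨z, hz⟩
      obtain ⟨zi, rfl⟩ := S.surj z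
      obtain ⟨b, hb⟩ := S.surj (S.φ^[n] (S.ν p.2.1) - S.φ^[c.unpair.1.unpair.1] (S.ν zi))
      obtain ⟨w, hw⟩ := (S.D_spec b).mp (by rw [hb]; exact hz)
      have := h (Nat.pair (Nat.pair n zi) (Nat.pair b w))
      simp only [Q, Nat.unpair_pair, Bool.and_eq_true, Bool.or_eq_true, Bool.not_eq_true',
        hw, Bool.and_true, decide_eq_false_iff_not] at this
      rcases this.2.1 with h1 | h1
      · exact h1 hn
      · have h2 : S.eqb (S.fr n p.2.1) (S.add (S.fr c.unpair.1.unpair.1 zi) b) = true := by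
          rw [S.eqb_spec, S.add_spec, S.fr_spec, S.fr_spec, hb]
          abel
        rw [h2] at h1
        exact absurd h1 (by simp)
    · intro hmem
      rw [← S.fr_spec, S.D_spec] at hmem
      obtain ⟨w, hw⟩ := hmem
      have := h (Nat.pair 0 (Nat.pair 0 w))
      simp only [Q, Nat.unpair_pair, Bool.and_eq_true, hw, Bool.not_true] at this
      exact absurd this.2.2 (by simp)
  · rintro ⟨⟨h1, h2⟩, h3, h4⟩ t
    have e4 : S.D (S.fr (c.unpair.1.unpair.1 + p.1 + 1) c.unpair.1.unpair.2)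
        t.unpair.2.unpair.2 = false := by
      rw [Bool.eq_false_iff]
      intro hw
      apply h4
      rw [← S.fr_spec]
      exact (S.D_spec _).mpr ⟨_, hw⟩
    simp only [Q, Bool.and_eq_true, Bool.or_eq_true, Bool.not_eq_true', e4, h2, h1, decide_true,
      and_true, true_and]
    by_contra hcon
    push Not at hcon
    obtain ⟨h5, h6⟩ := hcon
    rw [Bool.ne_false_iff, Bool.and_eq_true, decide_eq_true_eq] at h5
    rw [Bool.ne_false_iff, S.eqb_spec, S.add_spec, S.fr_spec, S.fr_spec] at h6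
    apply h3 _ h5.1
    refine ⟨S.ν t.unpair.1.unpair.2, ?_⟩
    rw [h6]
    have : S.ν t.unpair.2.unpair.1 ∈ S.L := (S.D_spec _).mpr ⟨_, h5.2⟩
    simpa using this

end Sys

end Pool.Agent.Work.MP_8df50c_lc
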