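import Pool.Agent.Work.MP_8df50c_lc.Abs

set_option autoImplicit false

namespace Pool.Agent.Work.MP_8df50c_lc

namespace Sys

variable {G : Type*} [AddCommGroup G] (S : Sys G)

attribute [local irreducible] Sys.Q allLt

section case2

variable (htor : ∀ x : G, ∃ n, S.φ^[n] x ∈ S.L)
  (hunb : ∀ n, ∃ x : G, S.φ^[n] x ∉ S.L)
  (hfin : ∀ x : G, x ∉ S.L → ∃ h, ¬ S.High h x)

include htor hunb hfin

theorem exists_Q (p : ℕ × ℕ × ℕ) : ∃ c, ∀ t, S.Q p c t = true := by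
  classical
  set y := S.ν p.2.1 with hy
  let N := Nat.find (htor y)
  have hN : S.φ^[N] y ∈ S.L := Nat.find_spec (htor y)
  have hN' : ∀ n < N, S.φ^[n] y ∉ S.L := fun n hn => Nat.find_min (htor y) hn
  have h1 : ∀ n, ∃ h, n < N → ¬ S.High h (S.φ^[n] y) := by
    intro n
    by_cases hn : n < N
    · obtain ⟨h, hh⟩ := hfin _ (hN' n hn)
      exact ⟨h, fun _ => hh⟩
    · exact ⟨0, fun h => absurd h hn⟩
  choose hgt hhgt using h1
  let m := max p.2.2 ((Finset.range N).sup hgt)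
  obtain ⟨a, ha⟩ := hunb (m + p.1 + 1)
  obtain ⟨ai, rfl⟩ := S.surj a
  obtain ⟨u, hu⟩ := (S.D_spec (S.fr N p.2.1)).mp (by rw [S.fr_spec]; exact hN)
  refine ⟨Nat.pair (Nat.pair m ai) (Nat.pair N u), ?_⟩
  rw [Q_iff]
  simp only [Nat.unpair_pair]
  refine ⟨⟨le_max_left _ _, hu⟩, ?_, ha⟩
  intro n hn hhigh
  apply hhgt n hn
  apply High.mono S _ hhigh
  exact (Finset.le_sup (f := hgt) (Finset.mem_range.mpr hn)).trans (le_max_right _ _)

theorem exists_allLt (p : (ℕ × ℕ × ℕ) × ℕ) : ∃ c, allLt (S.Q p.1 c) p.2 = true := by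
  obtain ⟨c, hc⟩ := S.exists_Q htor hunb hfin p.1
  exact ⟨c, by rw [allLt_iff]; exact fun t _ => hc t⟩

omit htor hunb hfin in
theorem allLt_Q_comp :
    Computable₂ (fun (p : (ℕ × ℕ × ℕ) × ℕ) (c : ℕ) => allLt (S.Q p.1 c) p.2) := by
  have hR : Computable (fun x : (((ℕ × ℕ × ℕ) × ℕ) × ℕ) × ℕ => S.Q x.1.1.1 x.1.2 x.2) := by
    have h1 : Computable (fun x : (((ℕ × ℕ × ℕ) × ℕ) × ℕ) × ℕ => ((x.1.1.1, x.1.2), x.2)) :=
      Computable.pair (Computable.pair (Computable.fst.comp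
        (Computable.fst.comp Computable.fst)) (Computable.snd.comp Computable.fst))
        Computable.snd
    have h2 := Computable.comp S.Q_comp h1
    exact h2
  have hn : Computable (fun x : ((ℕ × ℕ × ℕ) × ℕ) × ℕ => x.1.2) :=
    Computable.snd.comp Computable.fst
  have h3 := computable_allLt (R := fun (x : ((ℕ × ℕ × ℕ) × ℕ) × ℕ) t => S.Q x.1.1 x.2 t) hR hn
  exact h3

/-- Existence of the approximated witnesses. -/
theorem exists_wit : ∃ W : (ℕ × ℕ × ℕ) × ℕ → ℕ, Computable W ∧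
    (∀ p s, 1 ≤ s → p.2.2 ≤ (W (p, s)).unpair.1.unpair.1) ∧
    (∀ p, ∃ c, (∀ t, S.Q p c t = true) ∧ ∃ s0, ∀ s, s0 ≤ s → W (p, s) = c) := by
  refine ⟨fun p => Nat.find (S.exists_allLt htor hunb hfin p),
    computable_find S.allLt_Q_comp (S.exists_allLt htor hunb hfin), ?_, ?_⟩
  · intro p s hs
    have h2 := Nat.find_spec (S.exists_allLt htor hunb hfin (p, s))
    rw [allLt_iff] at h2
    have h3 := h2 0 hs
    simp only [Q, Bool.and_eq_true, decide_eq_true_eq] at h3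
    exact h3.1.1
  · intro p
    exact find_limit (S.Q p) (S.exists_Q htor hunb hfin p)
      (fun s => S.exists_allLt htor hunb hfin (p, s))

end case2

section rec

variable (W : (ℕ × ℕ × ℕ) × ℕ → ℕ)

/-- One step of the recursion at stage `s`. -/
def stepf (s : ℕ) (x : ℕ × (ℕ × ℕ)) : ℕ × ℕ :=
  (S.add x.2.1 (S.fr (W (x, s)).unpair.1.unpair.1 (W (x, s)).unpair.1.unpair.2),
    (W (x, s)).unpair.1.unpair.1)

theorem stepf_comp (hW : Computable W) : Computable₂ (S.stepf W) := by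
  have hw : Computable (fun x : ℕ × (ℕ × (ℕ × ℕ)) => (W (x.2, x.1)).unpair.1.unpair) :=
    Computable.unpair.comp (Computable.fst.comp (Computable.unpair.comp
      (hW.comp (Computable.pair Computable.snd Computable.fst))))
  exact Computable.pair (S.add_comp.comp (Computable.fst.comp (Computable.snd.comp Computable.snd))
      (S.fr_comp.comp (Computable.fst.comp hw) (Computable.snd.comp hw)))
      (Computable.fst.comp hw)

/-- The states at stage `s`. -/
def st (s : ℕ) (e : ℕ) : ℕ × ℕ :=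
  Nat.rec (0, 0) (fun e p => S.stepf W s (e, p)) e

theorem st_comp (hW : Computable W) : Computable (fun s => S.st W s s) := by
  unfold st
  exact Computable.nat_rec (f := fun s : ℕ => s) (g := fun _ => ((0 : ℕ), (0 : ℕ)))
    (h := fun s (x : ℕ × (ℕ × ℕ)) => S.stepf W s x)
    Computable.id (Computable.const _) (S.stepf_comp W hW)

theorem st_succ (s e : ℕ) : S.st W s (e + 1) =
    (S.add (S.st W s e).1 (S.fr (W ((e, S.st W s e), s)).unpair.1.unpair.1
      (W ((e, S.st W s e), s)).unpair.1.unpair.2),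
      (W ((e, S.st W s e), s)).unpair.1.unpair.1) := rfl

variable (hle : ∀ p s, 1 ≤ s → p.2.2 ≤ (W (p, s)).unpair.1.unpair.1)
  (hlim : ∀ p, ∃ c, (∀ t, S.Q p c t = true) ∧ ∃ s0, ∀ s, s0 ≤ s → W (p, s) = c)

include hlim in
theorem st_limit (e : ℕ) : ∃ p : ℕ × ℕ, ∃ s0, ∀ s, s0 ≤ s → S.st W s e = p := by
  induction e with
  | zero => exact ⟨(0, 0), 0, fun _ _ => rfl⟩
  | succ e ih =>
    obtain ⟨p, s0, hp⟩ := ih
    obtain ⟨c, -, s1, hc⟩ := hlim (e, p)
    refine ⟨(S.add p.1 (S.fr c.unpair.1.unpair.1 c.unpair.1.unpair.2), c.unpair.1.unpair.1),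
      max s0 s1, fun s hs => ?_⟩
    rw [st_succ, hp s ((le_max_left _ _).trans hs), hc s ((le_max_right _ _).trans hs)]

include hle in
/-- The tail of the series is highly divisible. -/
theorem st_tail {s k0 k : ℕ} (hs : 1 ≤ s) (hk : k0 ≤ k) :
    (S.st W s k0).2 ≤ (S.st W s k).2 ∧
    ∃ w : G, S.ν (S.st W s k).1 = S.ν (S.st W s k0).1 + S.φ^[(S.st W s k0).2] w := by
  induction k, hk using Nat.le_induction with
  | base =>
    refine ⟨le_rfl, 0, ?_⟩
    have : S.φ^[(S.st W s k0).2] 0 = 0 := by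
      have := S.iter_sub (S.st W s k0).2 0 0
      rwa [sub_self, sub_self] at this
    rw [this, add_zero]
  | succ k hk ih =>
    obtain ⟨h1, w, hw⟩ := ih
    rw [st_succ]
    set p := S.st W s k with hp
    set c := W ((k, p), s) with hc
    have hle' : p.2 ≤ c.unpair.1.unpair.1 := hle (k, p) s hs
    refine ⟨h1.trans hle', ?_⟩
    obtain ⟨d, hd⟩ := Nat.exists_eq_add_of_le (h1.trans hle')
    refine ⟨w + S.φ^[d] (S.ν c.unpair.1.unpair.2), ?_⟩
    simp only
    rw [S.add_spec, S.fr_spec, hw, hd, S.iter_add, Function.iterate_add_apply, add_assoc]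

include hle hlim in
theorem rec_main (e : ℕ) : ∃ s0, ∀ s, s0 ≤ s → S.φ^[e] (S.ν (S.st W s s).1) ∉ S.L := by
  obtain ⟨p, s0, hp⟩ := S.st_limit W hlim e
  obtain ⟨c, hc, s1, hc'⟩ := hlim (e, p)
  obtain ⟨p1, s2, hp1⟩ := S.st_limit W hlim (e + 1)
  obtain ⟨c1, hc1, s3, hc1'⟩ := hlim (e + 1, p1)
  rw [S.Q_iff] at hc hc1
  obtain ⟨⟨-, hcD⟩, hcH, hcL⟩ := hc
  obtain ⟨⟨-, hc1D⟩, hc1H, -⟩ := hc1
  simp only at hcD hcH hcL hc1D hc1H
  set m := c.unpair.1.unpair.1 with hm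
  set a := c.unpair.1.unpair.2 with ha
  set N := c.unpair.2.unpair.1 with hN
  set m1 := c1.unpair.1.unpair.1 with hm1
  set N1 := c1.unpair.2.unpair.1 with hN1
  -- the value of the (e+1)-st partial sum
  have hval : S.ν p1.1 = S.ν p.1 + S.φ^[m] (S.ν a) := by
    have h1 := hp1 (max (max s0 s1) s2) (le_max_right _ _)
    rw [st_succ, hp _ ((le_max_left _ _).trans (le_max_left _ _)),
      hc' _ ((le_max_right _ _).trans (le_max_left _ _))] at h1
    rw [← h1]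
    simp only
    rw [S.add_spec, S.fr_spec]
  have hND : S.φ^[N] (S.ν p.1) ∈ S.L := by
    rw [← S.fr_spec]; exact (S.D_spec _).mpr ⟨_, hcD⟩
  have hN1D : S.φ^[N1] (S.ν p1.1) ∈ S.L := by
    rw [← S.fr_spec]; exact (S.D_spec _).mpr ⟨_, hc1D⟩
  -- the partial sum has large exponent
  have hout : S.φ^[e] (S.ν p1.1) ∉ S.L := by
    intro hmem
    rw [hval, S.iter_add] at hmem
    by_cases hlt : e < N
    · apply hcH e hlt
      refine ⟨-S.φ^[e] (S.ν a), ?_⟩
      rw [S.iter_neg, sub_neg_eq_add, ← Function.iterate_add_apply, add_comm m e,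
        Function.iterate_add_apply]
      exact hmem
    · push Not at hlt
      have h1 : S.φ^[e] (S.ν p.1) ∈ S.L := S.iter_mem_of_le hlt hND
      have h2 : S.φ^[e] (S.φ^[m] (S.ν a)) ∈ S.L := by
        have := S.L.sub_mem hmem h1
        simpa using this
      rw [← Function.iterate_add_apply] at h2
      exact hcL (S.iter_mem_of_le (by omega) h2)
  have heN1 : e < N1 := by
    by_contra hge
    push Not at hge
    exact hout (S.iter_mem_of_le hge hN1D)
  -- the value at stage s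
  refine ⟨max (max s2 s3) (e + 2), fun s hs => ?_⟩
  have hs2 : s2 ≤ s := (le_max_left _ _).trans ((le_max_left _ _).trans hs)
  have hs3 : s3 ≤ s := (le_max_right _ _).trans ((le_max_left _ _).trans hs)
  have hs4 : e + 2 ≤ s := (le_max_right _ _).trans hs
  intro hmem
  have hst : S.st W s (e + 2) = (S.add p1.1 (S.fr m1 c1.unpair.1.unpair.2), m1) := by
    rw [show e + 2 = (e + 1) + 1 from rfl, st_succ, hp1 s hs2, hc1' s hs3]
  obtain ⟨-, w, hw⟩ := S.st_tail W hle (s := s) (k0 := e + 2) (k := s) (by omega) hs4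
  rw [hst] at hw
  simp only at hw
  rw [S.add_spec, S.fr_spec, add_assoc, ← S.iter_add] at hw
  rw [hw, S.iter_add, ← Function.iterate_add_apply, add_comm e m1,
    Function.iterate_add_apply] at hmem
  apply hc1H e heN1
  refine ⟨-S.φ^[e] (S.ν c1.unpair.1.unpair.2 + w), ?_⟩
  rw [S.iter_neg, sub_neg_eq_add]
  exact hmem

end rec

theorem case2 (htor : ∀ x : G, ∃ n, S.φ^[n] x ∈ S.L)
    (hunb : ∀ n, ∃ x : G, S.φ^[n] x ∉ S.L)
    (hfin : ∀ x : G, x ∉ S.L → ∃ h, ¬ S.High h x) :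
    ∃ ψ : ℕ → ℕ, Computable ψ ∧ ∀ n, ∃ s0, ∀ s, s0 ≤ s →
    S.φ^[n] (S.ν (ψ s)) ∉ S.L := by
  obtain ⟨W, hW, hle, hlim⟩ := S.exists_wit htor hunb hfin
  exact ⟨fun s => (S.st W s s).1, Computable.fst.comp (S.st_comp W hW),
    S.rec_main W hle hlim⟩

theorem main (htor : ∀ x : G, ∃ n, S.φ^[n] x ∈ S.L)
    (hunb : ∀ n, ∃ x : G, S.φ^[n] x ∉ S.L) :
    ∃ ψ : ℕ → ℕ, Computable ψ ∧ ∀ n, ∃ s0, ∀ s, s0 ≤ s → S.φ^[n] (S.ν (ψ s)) ∉ S.L := by
  by_cases h : ∃ x : G, x ∉ S.L ∧ ∀ h, S.High h x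
  · obtain ⟨x, hx, hh⟩ := h
    obtain ⟨ψ, hψ, h1⟩ := S.case1 hx hh
    exact ⟨ψ, hψ, fun n => ⟨n, fun s hs => h1 n s hs⟩⟩
  · push Not at h
    exact S.case2 htor hunb h

end Sys

end Pool.Agent.Work.MP_8df50c_lc
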