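import Pool.Agent.Work.MP_8df50c_lc.Trans

set_option autoImplicit false

namespace Pool.Agent.Work.MP_8df50c_lc

open Polynomial IntermediateField

variable {F K : Type*} [Field F] [Field K] [Algebra F K]

/-- `y` is a polynomial in `x` over `F`. -/
def InAdj (F : Type*) {K : Type*} [Field F] [Field K] [Algebra F K] (x y : K) : Prop :=
  ∃ P : F[X], aeval x P = y

theorem inAdj_iff [Algebra.IsAlgebraic F K] (x y : K) : InAdj F x y ↔ y ∈ F⟮x⟯ := by
  have h : y ∈ F⟮x⟯ ↔ y ∈ F⟮x⟯.toSubalgebra := Iff.rfl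
  rw [h, adjoin_simple_toSubalgebra_of_isAlgebraic (Algebra.IsAlgebraic.isAlgebraic x),
    Algebra.adjoin_singleton_eq_range_aeval]
  rfl

theorem pow_aeval (q : ℕ) [ExpChar F q] (y : K) (P : F[X]) :
    (aeval y P) ^ q = aeval (y ^ q) (P.map (frobenius F q)) := by
  rw [← map_pow, ← map_frobenius_expand q P, Polynomial.map_expand, expand_aeval]

theorem exists_pow_aeval (q : ℕ) [ExpChar F q] (y : K) (P : F[X]) (n : ℕ) :
    ∃ P' : F[X], (aeval y P) ^ q ^ n = aeval (y ^ q ^ n) P' := by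
  induction n with
  | zero => exact ⟨P, by simp⟩
  | succ n ih =>
    obtain ⟨P', hP'⟩ := ih
    exact ⟨P'.map (frobenius F q), by rw [pow_succ, pow_mul, hP', pow_aeval, ← pow_mul]⟩

theorem inAdj_pow (q : ℕ) [ExpChar F q] {x : K} (h : InAdj F (x ^ q) x) (n : ℕ) :
    InAdj F (x ^ q ^ n) x := by
  induction n with
  | zero => exact ⟨X, by simp⟩
  | succ n ih =>
    obtain ⟨Pn, hPn⟩ := ih
    obtain ⟨P, hP⟩ := h
    obtain ⟨P', hP'⟩ := exists_pow_aeval q (x ^ q) P n
    rw [hP] at hP'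
    refine ⟨Pn.comp P', ?_⟩
    rw [aeval_comp]
    have e : x ^ q ^ (n + 1) = (x ^ q) ^ q ^ n := by rw [← pow_mul, pow_succ']
    rw [e, ← hP', hPn]

theorem aeval_mem_sep {s : K} (hs : IsSeparable F s) (P : F[X]) : IsSeparable F (aeval s P) := by
  have h : aeval s P = ((aeval (⟨s, hs⟩ : separableClosure F K) P : separableClosure F K) : K) :=
    (IntermediateField.aeval_coe (separableClosure F K) ⟨s, hs⟩ P)
  rw [h]
  exact (aeval (⟨s, hs⟩ : separableClosure F K) P).2

theorem exists_pow_sep [Algebra.IsAlgebraic F K] (q : ℕ) [ExpChar F q] (x : K) :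
    ∃ n, IsSeparable F (x ^ q ^ n) := by
  have : ExpChar (separableClosure F K) q :=
    expChar_of_injective_algebraMap (algebraMap F (separableClosure F K)).injective q
  obtain ⟨n, hn⟩ := IsPurelyInseparable.pow_mem (separableClosure F K) q x
  obtain ⟨s, hs⟩ := hn
  exact ⟨n, by rw [← hs]; exact s.2⟩

theorem sep_iff [Algebra.IsAlgebraic F K] (q : ℕ) [ExpChar F q] (x : K) :
    IsSeparable F x ↔ InAdj F (x ^ q) x := by
  constructor
  · intro h
    rw [inAdj_iff, ← adjoin_simple_eq_adjoin_pow_expChar_of_isSeparable F K h q]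
    exact mem_adjoin_simple_self F x
  · intro h
    obtain ⟨n, hn⟩ := exists_pow_sep (F := F) q x
    obtain ⟨P, hP⟩ := inAdj_pow q h n
    rw [← hP]
    exact aeval_mem_sep hn P

theorem exists_primitive [Algebra.IsAlgebraic F K] {a b : K} (ha : IsSeparable F a)
    (hb : IsSeparable F b) : ∃ c : K, IsSeparable F c ∧ InAdj F c a ∧ InAdj F c b := by
  have h1 : Algebra.IsSeparable F F⟮a, b⟯ := isSeparable_adjoin_pair_of_isSeparable F K ha hb
  have h2 : FiniteDimensional F F⟮a, b⟯ := by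
    apply IntermediateField.finiteDimensional_adjoin
    intro x _
    exact (Algebra.IsAlgebraic.isAlgebraic x).isIntegral
  obtain ⟨γ, hγ⟩ := Field.exists_primitive_element F F⟮a, b⟯
  have key : ∀ y ∈ F⟮a, b⟯, InAdj F (γ : K) y := by
    intro y hy
    have h3 : (⟨y, hy⟩ : F⟮a, b⟯) ∈ F⟮γ⟯ := by rw [hγ]; trivial
    rw [← inAdj_iff] at h3
    obtain ⟨P, hP⟩ := h3
    refine ⟨P, ?_⟩
    rw [IntermediateField.aeval_coe, hP]
  refine ⟨(γ : K), ?_, key a ?_, key b ?_⟩
  · exact IntermediateField.isSeparable_of_mem_isSeparable F K γ.2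
  · exact subset_adjoin F _ (by simp)
  · exact subset_adjoin F _ (by simp)

theorem largeDeg_of_inAdj [Algebra.IsAlgebraic F K] {d : ℕ} {x y : K} (h : InAdj F x y)
    (hy : LargeDeg F d y) : LargeDeg F d x := by
  intro Q hQ hd h0
  have hx : IsIntegral F x := (Algebra.IsAlgebraic.isAlgebraic x).isIntegral
  have : FiniteDimensional F F⟮x⟯ := adjoin.finiteDimensional hx
  have hfr : Module.finrank F F⟮x⟯ ≤ d := by
    rw [adjoin.finrank hx]
    exact (natDegree_le_of_dvd (minpoly.dvd F x h0) hQ).trans hd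
  rw [inAdj_iff] at h
  have hmin : (minpoly F y).natDegree ≤ d := by
    have h1 := minpoly.natDegree_le (A := F) (⟨y, h⟩ : F⟮x⟯)
    have h2 : minpoly F (⟨y, h⟩ : F⟮x⟯) = minpoly F y := by
      have := minpoly.algebraMap_eq (A := F) (B := F⟮x⟯) (B' := K)
        (algebraMap F⟮x⟯ K).injective ⟨y, h⟩
      exact this.symm
    rw [h2] at h1
    exact h1.trans hfr
  exact hy (minpoly F y) (minpoly.ne_zero (Algebra.IsAlgebraic.isAlgebraic y).isIntegral) hmin
    (minpoly.aeval F y)

theorem pow_sep_of_not_largeDeg [Algebra.IsAlgebraic F K] (q : ℕ) [ExpChar F q] {d : ℕ} {x : K}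
    (h : ¬ LargeDeg F d x) : IsSeparable F (x ^ q ^ d) := by
  unfold LargeDeg at h
  push Not at h
  obtain ⟨P, hP, hd, h0⟩ := h
  have hx : IsIntegral F x := (Algebra.IsAlgebraic.isAlgebraic x).isIntegral
  have hmin : (minpoly F x).natDegree ≤ d :=
    (natDegree_le_of_dvd (minpoly.dvd F x h0) hP).trans hd
  obtain ⟨g, hg, m, hm⟩ := (minpoly.irreducible hx).hasSeparableContraction q
  have hsep : IsSeparable F (x ^ q ^ m) := by
    apply hg.of_dvd
    apply minpoly.dvd
    rw [← expand_aeval, hm, minpoly.aeval]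
  have hgdeg : g.natDegree ≠ 0 := by
    intro h1
    have : (minpoly F x).natDegree = 0 := by rw [← hm, natDegree_expand, h1, zero_mul]
    exact (minpoly.natDegree_pos hx).ne' this
  have hqm : q ^ m ≤ d := by
    have h1 : (minpoly F x).natDegree = g.natDegree * q ^ m := by rw [← hm, natDegree_expand]
    have h2 : q ^ m ≤ g.natDegree * q ^ m := Nat.le_mul_of_pos_left _ (Nat.pos_of_ne_zero hgdeg)
    omega
  have hle : ∃ k, q ^ d = q ^ m * q ^ k := by
    rcases Nat.lt_or_ge 1 q with h1 | h1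
    · have : m < q ^ m := Nat.lt_pow_self h1
      exact ⟨d - m, by rw [← pow_add]; congr 1; omega⟩
    · have hq : q = 1 := le_antisymm h1 (expChar_pos F q)
      exact ⟨0, by simp [hq]⟩
  obtain ⟨k, hk⟩ := hle
  rw [hk, pow_mul]
  exact pow_mem (S := separableClosure F K) (show x ^ q ^ m ∈ separableClosure F K from hsep) _

theorem exists_pow_not_sep [Algebra.IsAlgebraic F K] (q : ℕ) [ExpChar F q]
    (hbig : ∀ d, ∃ x : K, LargeDeg F d x) {D : ℕ}
    (hD : ∀ s : K, IsSeparable F s → ¬ LargeDeg F D s) (N : ℕ) :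
    ∃ x : K, ¬ IsSeparable F (x ^ q ^ N) := by
  by_contra hcon
  push Not at hcon
  obtain ⟨x, hx⟩ := hbig (D * q ^ N)
  have h1 := hD _ (hcon x)
  unfold LargeDeg at h1
  push Not at h1
  obtain ⟨P, hP, hd, h0⟩ := h1
  apply hx (expand F (q ^ N) P)
  · rw [Ne, expand_eq_zero (expChar_pow_pos F q N)]
    exact hP
  · rw [natDegree_expand]
    exact Nat.mul_le_mul_right _ hd
  · rw [expand_aeval]
    exact h0

end Pool.Agent.Work.MP_8df50c_lc
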