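import Mathlib

set_option autoImplicit false

/-!
Computability toolkit: search, bounded quantifiers, iteration.
-/

namespace Pool.Agent.Work.MP_8df50c_lc

variable {α : Type*} [Primcodable α]

theorem computable_find {R : α → ℕ → Bool} (hR : Computable₂ R) (h : ∀ a, ∃ n, R a n = true) :
    Computable (fun a => Nat.find (h a)) := by
  have h1 : Partrec fun a => Nat.rfind (fun n => (Part.some (R a n) : Part Bool)) :=
    Partrec.rfind hR.partrec₂
  refine h1.of_eq_tot fun a => ?_
  rw [Nat.mem_rfind]
  refine ⟨?_, fun {m} hm => ?_⟩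
  · rw [Part.mem_some_iff]
    exact (Nat.find_spec (h a)).symm
  · rw [Part.mem_some_iff]
    have := Nat.find_min (h a) hm
    simpa using this

/-- `allLt R n` iff `R t` for all `t < n`. -/
def allLt (R : ℕ → Bool) : ℕ → Bool := fun n => Nat.rec true (fun t acc => acc && R t) n

theorem allLt_iff (R : ℕ → Bool) (n : ℕ) : allLt R n = true ↔ ∀ t < n, R t = true := by
  induction n with
  | zero => simp [allLt]
  | succ n ih =>
    have e : allLt R (n + 1) = (allLt R n && R n) := rfl
    rw [e, Bool.and_eq_true, ih]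
    constructor
    · rintro ⟨h1, h2⟩ t ht
      rcases Nat.lt_succ_iff_lt_or_eq.mp ht with h | rfl
      · exact h1 t h
      · exact h2
    · intro h
      exact ⟨fun t ht => h t (by omega), h n (by omega)⟩

theorem computable_allLt {R : α → ℕ → Bool} (hR : Computable₂ R) {n : α → ℕ}
    (hn : Computable n) : Computable (fun a => allLt (R a) (n a)) := by
  unfold allLt
  exact Computable.nat_rec (h := fun a p => p.2 && R a p.1) hn (Computable.const true)
    (Primrec.and.to_comp.comp (Computable.snd.comp Computable.snd)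
      (hR.comp Computable.fst (Computable.fst.comp Computable.snd))).to₂

/-- A field numbered by all natural numbers, with computable addition, multiplication and
equality. -/
structure Num (K : Type*) [Field K] where
  ν : ℕ → K
  surj : Function.Surjective ν
  add : ℕ → ℕ → ℕ
  add_comp : Computable₂ add
  add_spec : ∀ m n, ν (add m n) = ν m + ν n
  mul : ℕ → ℕ → ℕ
  mul_comp : Computable₂ mul
  mul_spec : ∀ m n, ν (mul m n) = ν m * ν n
  eqb : ℕ → ℕ → Bool
  eqb_comp : Computable₂ eqb
  eqb_spec : ∀ m n, eqb m n = true ↔ ν m = ν n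

namespace Num

variable {K : Type*} [Field K] (N : Num K)

/-- Index of an element. -/
noncomputable def idx (x : K) : ℕ := (N.surj x).choose

theorem ν_idx (x : K) : N.ν (N.idx x) = x := (N.surj x).choose_spec

/-- Powers. -/
noncomputable def pw (x n : ℕ) : ℕ := Nat.rec (N.idx 1) (fun _ acc => N.mul acc x) n

theorem pw_spec (x n : ℕ) : N.ν (N.pw x n) = N.ν x ^ n := by
  induction n with
  | zero => simp [pw, ν_idx]
  | succ n ih =>
    have e : N.pw x (n + 1) = N.mul (N.pw x n) x := rfl
    rw [e, N.mul_spec, ih, pow_succ]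

theorem pw_comp : Computable₂ N.pw := by
  unfold pw
  exact Computable.nat_rec (h := fun (a : ℕ × ℕ) p => N.mul p.2 a.1) Computable.snd
    (Computable.const _)
    (N.mul_comp.comp (Computable.snd.comp Computable.snd)
      (Computable.fst.comp Computable.fst)).to₂

/-- Iterated `q`-th power. -/
noncomputable def fr (q : ℕ) (n x : ℕ) : ℕ := Nat.rec x (fun _ acc => N.pw acc q) n

theorem fr_spec (q n x : ℕ) : N.ν (N.fr q n x) = N.ν x ^ q ^ n := by
  induction n with
  | zero => simp [fr]
  | succ n ih =>
    have e : N.fr q (n + 1) x = N.pw (N.fr q n x) q := rfl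
    rw [e, N.pw_spec, ih, ← pow_mul, pow_succ]

theorem fr_comp (q : ℕ) : Computable₂ (N.fr q) := by
  unfold fr
  exact Computable.nat_rec (h := fun (a : ℕ × ℕ) p => N.pw p.2 q) Computable.fst
    Computable.snd
    (N.pw_comp.comp (Computable.snd.comp Computable.snd) (Computable.const q)).to₂

section polyEval

open Polynomial

variable {F : Type*} [Field F] [Algebra F K] (νF : ℕ → F) (j : ℕ → ℕ)

/-- The polynomial coded by `c`, of degree `< n`. -/
noncomputable def poly : ℕ → ℕ → F[X]
  | 0, _ => 0
  | n + 1, c => C (νF c.unpair.1) + X * poly n c.unpair.2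

theorem exists_poly (hF : Function.Surjective νF) (n : ℕ) (P : F[X]) (hP : P.natDegree < n ∨ P = 0) :
    ∃ c, poly νF n c = P := by
  induction n generalizing P with
  | zero =>
    rcases hP with h | h
    · omega
    · exact ⟨0, by rw [h]; rfl⟩
  | succ n ih =>
    obtain ⟨a, ha⟩ := hF (P.coeff 0)
    obtain ⟨c, hc⟩ := ih P.divX (by
      by_cases h0 : P.divX = 0
      · exact Or.inr h0
      · left
        rcases hP with h | h
        · have h1 : P.natDegree ≠ 0 := by
            intro h2
            apply h0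
            rw [Polynomial.divX_eq_zero_iff]
            exact Polynomial.eq_C_of_natDegree_eq_zero h2
          rw [Polynomial.natDegree_divX_eq_natDegree_tsub_one]
          omega
        · exact absurd (by rw [h]; simp) h0)
    refine ⟨Nat.pair a c, ?_⟩
    rw [poly, Nat.unpair_pair]
    simp only
    rw [hc, ha, add_comm, Polynomial.X_mul_divX_add]

/-- One step of the evaluation. -/
noncomputable def peStep (x : ℕ) (st : ℕ × ℕ × ℕ) : ℕ × ℕ × ℕ :=
  (st.1.unpair.2, N.add st.2.1 (N.mul (j st.1.unpair.1) st.2.2), N.mul st.2.2 x)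

/-- The index of the value of the polynomial coded by `(n, c)` at the element with index `x`. -/
noncomputable def pe (n c x : ℕ) : ℕ :=
  (Nat.rec (c, N.idx 0, N.idx 1) (fun _ st => N.peStep j x st) n : ℕ × ℕ × ℕ).2.1

theorem peStep_iterate (hj : ∀ m, N.ν (j m) = algebraMap F K (νF m)) (x : ℕ) (n : ℕ)
    (c a p : ℕ) : N.ν (((N.peStep j x)^[n] (c, a, p)).2.1) =
      N.ν a + N.ν p * aeval (N.ν x) (poly νF n c) := by
  induction n generalizing c a p with
  | zero => simp [poly]
  | succ n ih =>
    rw [Function.iterate_succ_apply, peStep, ih]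
    simp only [poly, N.add_spec, N.mul_spec, hj, map_add, map_mul, aeval_C, aeval_X]
    ring

theorem pe_spec (hj : ∀ m, N.ν (j m) = algebraMap F K (νF m)) (n c x : ℕ) :
    N.ν (N.pe j n c x) = aeval (N.ν x) (poly νF n c) := by
  have e : ∀ n, (Nat.rec (c, N.idx 0, N.idx 1) (fun _ st => N.peStep j x st) n : ℕ × ℕ × ℕ) =
      (N.peStep j x)^[n] (c, N.idx 0, N.idx 1) := by
    intro n
    induction n with
    | zero => rfl
    | succ n ih =>
      rw [Function.iterate_succ_apply', ← ih]
  rw [pe, e, N.peStep_iterate νF j hj]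
  simp [ν_idx]

theorem pe_comp (hj : Computable j) :
    Computable (fun t : ℕ × ℕ × ℕ => N.pe j t.1 t.2.1 t.2.2) := by
  unfold pe
  have h := Computable.nat_rec (h := fun (t : ℕ × ℕ × ℕ) (p : ℕ × ℕ × ℕ × ℕ) =>
      N.peStep j t.2.2 p.2) (f := fun t : ℕ × ℕ × ℕ => t.1)
      (g := fun t : ℕ × ℕ × ℕ => (t.2.1, N.idx 0, N.idx 1)) Computable.fst
      (Computable.pair (Computable.fst.comp Computable.snd) (Computable.const _)) (by
    unfold peStep
    have h1 : Computable (fun t : (ℕ × ℕ × ℕ) × (ℕ × ℕ × ℕ × ℕ) => t.2.2.1.unpair) :=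
      Computable.unpair.comp (Computable.fst.comp (Computable.snd.comp Computable.snd))
    have h2 : Computable (fun t : (ℕ × ℕ × ℕ) × (ℕ × ℕ × ℕ × ℕ) => t.2.2.2.1) :=
      Computable.fst.comp (Computable.snd.comp (Computable.snd.comp Computable.snd))
    have h3 : Computable (fun t : (ℕ × ℕ × ℕ) × (ℕ × ℕ × ℕ × ℕ) => t.2.2.2.2) :=
      Computable.snd.comp (Computable.snd.comp (Computable.snd.comp Computable.snd))
    have h4 : Computable (fun t : (ℕ × ℕ × ℕ) × (ℕ × ℕ × ℕ × ℕ) => t.1.2.2) :=
      Computable.snd.comp (Computable.snd.comp Computable.fst)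
    exact (Computable.pair (Computable.snd.comp h1)
      (Computable.pair (N.add_comp.comp h2 (N.mul_comp.comp (hj.comp (Computable.fst.comp h1)) h3))
        (N.mul_comp.comp h3 h4))).to₂)
  exact Computable.fst.comp (Computable.snd.comp h)

end polyEval

end Num

end Pool.Agent.Work.MP_8df50c_lc
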