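import Mathlib

set_option autoImplicit false

/-!
Definitions: computable fields, computable extensions, cohesive sets, cohesive powers.

The elements of the cohesive power `∏_C A` are the classes, modulo agreement at almost every `i`, of
the partial computable functions `ω → A` defined at almost every `i`.  They are represented here as
those germs (elements of the ring `(almostAll C).Germ A` with pointwise operations) which satisfy
`IsPartialComputable`.
-/

namespace Pool.Agent.Work.MP_8df50c_lc

open Filter

/-- `C ⊆ ω` is cohesive: it is infinite, and for every computably enumerable `W` either `C \ W` or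
`C ∩ W` is finite. -/
def Cohesive (C : Set ℕ) : Prop :=
  C.Infinite ∧ ∀ W : Set ℕ, REPred (fun n => n ∈ W) → (C \ W).Finite ∨ (C ∩ W).Finite

/-- The filter of almost every `i`: a set is in it iff it contains all but finitely many elements
of `C`. -/
def almostAll (C : Set ℕ) : Filter ℕ := Filter.cofinite ⊓ Filter.principal C

/-- A computable field: the elements of `A` are coded injectively by the members of a computable
set of natural numbers, and the field operations are computable on the codes. -/
structure ComputableField (A : Type*) [Field A] where
  /-- the coding -/
  code : A → ℕ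
  code_injective : Function.Injective code
  computable_domain : ComputablePred (fun n => n ∈ Set.range code)
  computable_add : ∃ f : ℕ × ℕ → ℕ, Computable f ∧ ∀ x y : A, f (code x, code y) = code (x + y)
  computable_mul : ∃ f : ℕ × ℕ → ℕ, Computable f ∧ ∀ x y : A, f (code x, code y) = code (x * y)

/-- The embedding `F → K` is computable. -/
def ComputableEmbedding {F K : Type*} [Field F] [Field K] [Algebra F K] (PF : ComputableField F)
    (PK : ComputableField K) : Prop :=
  ∃ f : ℕ → ℕ, Computable f ∧ ∀ x : F, f (PF.code x) = PK.code (algebraMap F K x)

/-- `g` is the class of a partial computable function `ω → A` defined at almost every `i`. -/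
def IsPartialComputable {A : Type*} [Field A] (P : ComputableField A) (C : Set ℕ)
    (g : (almostAll C).Germ A) : Prop :=
  ∃ p : ℕ →. ℕ, Partrec p ∧
    ∃ φ : ℕ → A, g = (φ : (almostAll C).Germ A) ∧ ∀ᶠ i in almostAll C, P.code (φ i) ∈ p i

/-- `x` is algebraic over (the image in the ring of germs of) the cohesive power `∏_C F`: it is a
root of a nonzero polynomial all of whose coefficients are images of elements of `∏_C F`. -/
def AlgebraicOverPower {F K : Type*} [Field F] [Field K] [Algebra F K] (PF : ComputableField F)
    (C : Set ℕ) (x : (almostAll C).Germ K) : Prop :=
  ∃ q : Polynomial ((almostAll C).Germ K), q ≠ 0 ∧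
    (∀ k, ∃ g : (almostAll C).Germ F, IsPartialComputable PF C g ∧
      q.coeff k = Filter.Germ.map (algebraMap F K) g) ∧
    Polynomial.eval x q = 0

/-- The extension `∏_C K / ∏_C F` is algebraic. -/
def PowerExtensionAlgebraic {F K : Type*} [Field F] [Field K] [Algebra F K]
    (PF : ComputableField F) (PK : ComputableField K) (C : Set ℕ) : Prop :=
  ∀ x : (almostAll C).Germ K, IsPartialComputable PK C x → AlgebraicOverPower PF C x

end Pool.Agent.Work.MP_8df50c_lc
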