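import Pool.Agent.Work.MP_8df50c_lc.PowerRing
import Pool.Agent.Work.MP_8df50c_lc.Comp

set_option autoImplicit false

namespace Pool.Agent.Work.MP_8df50c_lc

theorem computable_eqb : Computable₂ (fun m n : ℕ => decide (m = n)) :=
  Primrec.eq.decide.to_comp

theorem exists_num {A : Type*} [Field A] (P : ComputableField A) :
    ∃ N : Num A, Computable (fun n => P.code (N.ν n)) ∧ ∀ y, N.ν (P.code y) = y := by
  classical
  obtain ⟨fa, hfa, hfa'⟩ := P.computable_add
  obtain ⟨fm, hfm, hfm'⟩ := P.computable_mul
  have hdec : Computable (fun n : ℕ => decide (n ∈ Set.range P.code)) := P.computable_domain.decide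
  set e : ℕ → ℕ := fun n => cond (decide (n ∈ Set.range P.code)) n (P.code 0) with he
  have hecomp : Computable e := Computable.cond hdec Computable.id (Computable.const _)
  have hrange : ∀ n, ∃ x, P.code x = e n := by
    intro n
    by_cases h : n ∈ Set.range P.code
    · obtain ⟨x, hx⟩ := h
      exact ⟨x, by simp [he, ← hx]⟩
    · exact ⟨0, by simp only [he, h, decide_false, cond_false]⟩
  choose ν hν using hrange
  have hcode : ∀ y, ν (P.code y) = y := by
    intro y
    apply P.code_injective
    rw [hν]
    simp [he]
  refine ⟨⟨ν, fun y => ⟨P.code y, hcode y⟩, fun m n => fa (e m, e n), ?_, ?_,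
    fun m n => fm (e m, e n), ?_, ?_, fun m n => decide (e m = e n), ?_, ?_⟩, ?_, hcode⟩
  · exact hfa.comp (Computable.pair (hecomp.comp Computable.fst) (hecomp.comp Computable.snd))
  · intro m n
    rw [← hν m, ← hν n, hfa', hcode]
  · exact hfm.comp (Computable.pair (hecomp.comp Computable.fst) (hecomp.comp Computable.snd))
  · intro m n
    rw [← hν m, ← hν n, hfm', hcode]
  · exact computable_eqb.comp (hecomp.comp Computable.fst) (hecomp.comp Computable.snd)
  · intro m n
    rw [decide_eq_true_iff, ← hν m, ← hν n]
    exact P.code_injective.eq_iff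
  · exact hecomp.of_eq fun n => (hν n).symm

end Pool.Agent.Work.MP_8df50c_lc
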