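import Pool.Agent.Work.MP_8df50c_lc.Alg
import Pool.Agent.Work.MP_8df50c_lc.Abs2
import Pool.Agent.Work.MP_8df50c_lc.NumOf

set_option autoImplicit false

namespace Pool.Agent.Work.MP_8df50c_lc

open Polynomial IntermediateField

section cert

variable {F K : Type*} [Field F] [Field K] [Algebra F K] (N : Num K) (νF : ℕ → F)
  (hF : Function.Surjective νF) (j : ℕ → ℕ) (hj : Computable j)
  (hj' : ∀ m, N.ν (j m) = algebraMap F K (νF m))

/-- `w` certifies that `y` is a polynomial in `x`. -/
noncomputable def inb (p : ℕ × ℕ × ℕ) : Bool :=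
  N.eqb (N.pe j p.1.unpair.1 p.1.unpair.2 p.2.1) p.2.2

include hj in
theorem inb_comp : Computable (inb N j) := by
  have h1 : Computable (fun p : ℕ × ℕ × ℕ => p.1.unpair) :=
    Computable.unpair.comp Computable.fst
  have h2 : Computable (fun p : ℕ × ℕ × ℕ => (p.1.unpair.1, p.1.unpair.2, p.2.1)) :=
    Computable.pair (Computable.fst.comp h1) (Computable.pair (Computable.snd.comp h1)
      (Computable.fst.comp Computable.snd))
  have h3 := Computable.comp (N.pe_comp j hj) h2
  have h4 := Computable₂.comp N.eqb_comp h3 (Computable.snd.comp Computable.snd)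
  exact h4

include hF hj' in
theorem inb_spec (x y : ℕ) : InAdj F (N.ν x) (N.ν y) ↔ ∃ w, inb N j (w, x, y) = true := by
  constructor
  · rintro ⟨P, hP⟩
    obtain ⟨c, hc⟩ := Num.exists_poly νF hF (P.natDegree + 1) P (Or.inl (Nat.lt_succ_self _))
    refine ⟨Nat.pair (P.natDegree + 1) c, ?_⟩
    simp only [inb, Nat.unpair_pair]
    rw [N.eqb_spec, N.pe_spec νF j hj', hc, hP]
  · rintro ⟨w, hw⟩
    simp only [inb] at hw
    rw [N.eqb_spec, N.pe_spec νF j hj'] at hw
    exact ⟨_, hw⟩

/-- `w` certifies that `x` is separable. -/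
noncomputable def Dsep (q : ℕ) (x w : ℕ) : Bool := inb N j (w, N.pw x q, x)

include hj in
theorem Dsep_comp (q : ℕ) : Computable₂ (Dsep N j q) := by
  have h1 : Computable (fun p : ℕ × ℕ => (p.2, N.pw p.1 q, p.1)) :=
    Computable.pair Computable.snd (Computable.pair
      (N.pw_comp.comp Computable.fst (Computable.const q)) Computable.fst)
  have h2 := Computable.comp (inb_comp N j hj) h1
  exact h2

include hF hj' in
theorem Dsep_spec [Algebra.IsAlgebraic F K] (q : ℕ) [ExpChar F q] (x : ℕ) :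
    IsSeparable F (N.ν x) ↔ ∃ w, Dsep N j q x w = true := by
  rw [sep_iff q, ← N.pw_spec, inb_spec N νF hF j hj']
  rfl

end cert

section seq

variable {F K : Type*} [Field F] [Field K] [Algebra F K] [Algebra.IsAlgebraic F K]
  (N : Num K) (νF : ℕ → F)
  (hF : Function.Surjective νF) (j : ℕ → ℕ) (hj : Computable j)
  (hj' : ∀ m, N.ν (j m) = algebraMap F K (νF m)) (q : ℕ) [ExpChar F q]

omit [Algebra.IsAlgebraic F K] in
theorem InAdj.trans {x y z : K} (h1 : InAdj F x y) (h2 : InAdj F y z) : InAdj F x z := by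
  obtain ⟨P, rfl⟩ := h1
  obtain ⟨P', rfl⟩ := h2
  exact ⟨P'.comp P, by rw [aeval_comp]⟩

/-- An enumeration of the separable elements. -/
noncomputable def bseq (i : ℕ) : ℕ := cond (Dsep N j q i.unpair.1 i.unpair.2) i.unpair.1 (N.idx 0)

include hj in
theorem bseq_comp : Computable (bseq N j q) := by
  have h1 := Computable₂.comp (Dsep_comp N j hj q) (Computable.fst.comp Computable.unpair)
    (Computable.snd.comp Computable.unpair)
  exact Computable.cond h1 (Computable.fst.comp Computable.unpair) (Computable.const _)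

include hF hj' in
theorem bseq_sep (i : ℕ) : IsSeparable F (N.ν (bseq N j q i)) := by
  unfold bseq
  cases h : Dsep N j q i.unpair.1 i.unpair.2
  · simp only [cond_false]
    rw [N.ν_idx]
    exact (separableClosure F K).zero_mem
  · simp only [cond_true]
    exact (Dsep_spec N νF hF j hj' q _).mpr ⟨_, h⟩

include hF hj' in
theorem bseq_surj {x : K} (hx : IsSeparable F x) : ∃ i, N.ν (bseq N j q i) = x := by
  obtain ⟨xi, rfl⟩ := N.surj x
  obtain ⟨w, hw⟩ := (Dsep_spec N νF hF j hj' q xi).mp hx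
  refine ⟨Nat.pair xi w, ?_⟩
  simp only [bseq, Nat.unpair_pair, hw, cond_true]

/-- The relation searched for: `p = ((θ, wθ), i)`, `w = ((γ, w1), (w2, w3))`. -/
noncomputable def Rsep (p : (ℕ × ℕ) × ℕ) (w : ℕ) : Bool :=
  !(Dsep N j q p.1.1 p.1.2) ||
    (Dsep N j q w.unpair.1.unpair.1 w.unpair.1.unpair.2 &&
      (inb N j (w.unpair.2.unpair.1, w.unpair.1.unpair.1, p.1.1) &&
        inb N j (w.unpair.2.unpair.2, w.unpair.1.unpair.1, bseq N j q p.2)))

include hj in
theorem Rsep_comp : Computable₂ (Rsep N j q) := by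
  have hand : Computable₂ (fun a b : Bool => a && b) := Primrec.and.to_comp
  have hor : Computable₂ (fun a b : Bool => a || b) := Primrec.or.to_comp
  have hnot : Computable (fun a : Bool => !a) := Primrec.not.to_comp
  have p11 : Computable (fun x : ((ℕ × ℕ) × ℕ) × ℕ => x.1.1.1) :=
    Computable.fst.comp (Computable.fst.comp Computable.fst)
  have p12 : Computable (fun x : ((ℕ × ℕ) × ℕ) × ℕ => x.1.1.2) :=
    Computable.snd.comp (Computable.fst.comp Computable.fst)
  have p2 : Computable (fun x : ((ℕ × ℕ) × ℕ) × ℕ => x.1.2) :=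
    Computable.snd.comp Computable.fst
  have w0 : Computable (fun x : ((ℕ × ℕ) × ℕ) × ℕ => x.2.unpair) :=
    Computable.unpair.comp Computable.snd
  have w1 : Computable (fun x : ((ℕ × ℕ) × ℕ) × ℕ => x.2.unpair.1.unpair) :=
    Computable.unpair.comp (Computable.fst.comp w0)
  have w2 : Computable (fun x : ((ℕ × ℕ) × ℕ) × ℕ => x.2.unpair.2.unpair) :=
    Computable.unpair.comp (Computable.snd.comp w0)
  have g1 := Computable.fst.comp w1
  have a1 := Computable₂.comp (Dsep_comp N j hj q) p11 p12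
  have a2 := Computable₂.comp (Dsep_comp N j hj q) g1 (Computable.snd.comp w1)
  have a3 := Computable.comp (inb_comp N j hj)
    (Computable.pair (Computable.fst.comp w2) (Computable.pair g1 p11))
  have a4 := Computable.comp (inb_comp N j hj)
    (Computable.pair (Computable.snd.comp w2) (Computable.pair g1
      (Computable.comp (bseq_comp N j hj q) p2)))
  have h := hor.comp (hnot.comp a1) (hand.comp a2 (hand.comp a3 a4))
  exact h

include hF hj' in
theorem Rsep_exists (p : (ℕ × ℕ) × ℕ) : ∃ w, Rsep N j q p w = true := by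
  by_cases h : Dsep N j q p.1.1 p.1.2 = true
  · have h1 : IsSeparable F (N.ν p.1.1) := (Dsep_spec N νF hF j hj' q _).mpr ⟨_, h⟩
    obtain ⟨c, hc, hca, hcb⟩ := exists_primitive h1 (bseq_sep N νF hF j hj' q p.2)
    obtain ⟨ci, rfl⟩ := N.surj c
    obtain ⟨w1, hw1⟩ := (Dsep_spec N νF hF j hj' q ci).mp hc
    obtain ⟨w2, hw2⟩ := (inb_spec N νF hF j hj' _ _).mp hca
    obtain ⟨w3, hw3⟩ := (inb_spec N νF hF j hj' _ _).mp hcb
    refine ⟨Nat.pair (Nat.pair ci w1) (Nat.pair w2 w3), ?_⟩
    simp only [Rsep, Nat.unpair_pair, hw1, hw2, hw3]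
    simp
  · refine ⟨0, ?_⟩
    rw [Bool.not_eq_true] at h
    simp [Rsep, h]

include hF hj hj' in
theorem sep_case (q : ℕ) [ExpChar F q] (hbig : ∀ d, ∃ x : K, IsSeparable F x ∧ LargeDeg F d x) :
    ∃ ψ : ℕ → ℕ, Computable ψ ∧ ∀ d, ∃ s0, ∀ s, s0 ≤ s → LargeDeg F d (N.ν (ψ s)) := by
  have hz : IsSeparable F (N.ν (N.idx 0)) := by
    rw [N.ν_idx]; exact (separableClosure F K).zero_mem
  obtain ⟨wz, hwz⟩ := (Dsep_spec N νF hF j hj' q _).mp hz
  obtain ⟨W, hW, hWs⟩ : ∃ W : (ℕ × ℕ) × ℕ → ℕ, Computable W ∧ ∀ p, Rsep N j q p (W p) = true :=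
    ⟨_, computable_find (Rsep_comp N j hj q) (Rsep_exists N νF hF j hj' q),
      fun p => Nat.find_spec (Rsep_exists N νF hF j hj' q p)⟩
  let st : ℕ → ℕ × ℕ := fun n => Nat.rec (N.idx 0, wz) (fun i p => (W (p, i)).unpair.1.unpair) n
  have hst : Computable st := by
    have h := Computable.nat_rec (f := fun n : ℕ => n) (g := fun _ => (N.idx 0, wz))
      (h := fun (_ : ℕ) (x : ℕ × (ℕ × ℕ)) => (W (x.2, x.1)).unpair.1.unpair)
      Computable.id (Computable.const _)
      (by
        have h1 : Computable (fun x : ℕ × (ℕ × (ℕ × ℕ)) => (x.2.2, x.2.1)) :=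
          Computable.pair (Computable.snd.comp Computable.snd) (Computable.fst.comp Computable.snd)
        have h2 := Computable.comp hW h1
        exact Computable.unpair.comp (Computable.fst.comp (Computable.unpair.comp h2)))
    exact h
  have hsucc : ∀ n, st (n + 1) = (W (st n, n)).unpair.1.unpair := fun n => rfl
  have hD : ∀ n, Dsep N j q (st n).1 (st n).2 = true := by
    intro n
    induction n with
    | zero => exact hwz
    | succ n ih =>
      have h := hWs (st n, n)
      simp only [Rsep, ih, Bool.not_true, Bool.false_or, Bool.and_eq_true] at h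
      rw [hsucc]
      exact h.1
  have hstep : ∀ n, InAdj F (N.ν (st (n + 1)).1) (N.ν (st n).1) ∧
      InAdj F (N.ν (st (n + 1)).1) (N.ν (bseq N j q n)) := by
    intro n
    have h := hWs (st n, n)
    simp only [Rsep, hD n, Bool.not_true, Bool.false_or, Bool.and_eq_true] at h
    rw [hsucc]
    exact ⟨(inb_spec N νF hF j hj' _ _).mpr ⟨_, h.2.1⟩,
      (inb_spec N νF hF j hj' _ _).mpr ⟨_, h.2.2⟩⟩
  refine ⟨fun s => (st s).1, Computable.fst.comp hst, ?_⟩
  intro d
  obtain ⟨x, hx, hxd⟩ := hbig d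
  obtain ⟨i, rfl⟩ := bseq_surj N νF hF j hj' q hx
  refine ⟨i + 1, fun s hs => ?_⟩
  have key : InAdj F (N.ν (st s).1) (N.ν (bseq N j q i)) := by
    induction s, hs using Nat.le_induction with
    | base => exact (hstep i).2
    | succ k hk ih => exact (hstep k).1.trans ih
  exact largeDeg_of_inAdj key hxd

/-- The system of the purely inseparable case. -/
noncomputable def sys : Sys K :=
  have : ExpChar K q := expChar_of_injective_algebraMap (algebraMap F K).injective q
  { φ := (frobenius K q).toAddMonoidHom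
    L := (separableClosure F K).toSubfield.toAddSubgroup
    φ_mem := fun x hx => by
      have hx' : x ∈ separableClosure F K := hx
      have h : x ^ q ∈ separableClosure F K := pow_mem hx' q
      exact h
    ν := N.ν
    surj := N.surj
    add := N.add
    add_comp := N.add_comp
    add_spec := N.add_spec
    fr := N.fr q
    fr_comp := N.fr_comp q
    fr_spec := fun n x => by
      rw [N.fr_spec]
      exact (iterate_frobenius q n (N.ν x)).symm
    eqb := N.eqb
    eqb_comp := N.eqb_comp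
    eqb_spec := N.eqb_spec
    D := Dsep N j q
    D_comp := Dsep_comp N j hj q
    D_spec := fun x => Dsep_spec N νF hF j hj' q x }

include hF hj hj' in
theorem insep_case (hun : ∀ n, ∃ x : K, ¬ IsSeparable F (x ^ q ^ n)) :
    ∃ ψ : ℕ → ℕ, Computable ψ ∧ ∀ d, ∃ s0, ∀ s, s0 ≤ s → LargeDeg F d (N.ν (ψ s)) := by
  have hq : ExpChar K q := expChar_of_injective_algebraMap (algebraMap F K).injective q
  have hiter : ∀ (n : ℕ) (x : K), (sys N νF hF j hj hj' q).φ^[n] x = x ^ q ^ n :=
    fun n x => iterate_frobenius q n x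
  obtain ⟨ψ, hψ, h⟩ := (sys N νF hF j hj hj' q).main
    (fun x => by
      obtain ⟨n, hn⟩ := exists_pow_sep (F := F) q x
      exact ⟨n, by rw [hiter]; exact hn⟩)
    (fun n => by
      obtain ⟨x, hx⟩ := hun n
      exact ⟨x, by rw [hiter]; exact hx⟩)
  refine ⟨ψ, hψ, fun d => ?_⟩
  obtain ⟨s0, hs0⟩ := h d
  refine ⟨s0, fun s hs => ?_⟩
  by_contra hcon
  apply hs0 s hs
  rw [hiter]
  exact pow_sep_of_not_largeDeg q hcon

end seq

theorem exists_seq {F K : Type*} [Field F] [Field K] [Algebra F K] [Algebra.IsAlgebraic F K]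
    (PF : ComputableField F) (PK : ComputableField K) (hFK : ComputableEmbedding PF PK)
    (hbig : ∀ d, ∃ x : K, LargeDeg F d x) :
    ∃ φ : ℕ → K, Computable (fun n => PK.code (φ n)) ∧
      ∀ d, ∃ s0, ∀ s, s0 ≤ s → LargeDeg F d (φ s) := by
  obtain ⟨NF, hNF, hNF'⟩ := exists_num PF
  obtain ⟨N, hN, hN'⟩ := exists_num PK
  obtain ⟨f, hf, hf'⟩ := hFK
  obtain ⟨q, hq⟩ := ExpChar.exists F
  set j : ℕ → ℕ := fun m => f (PF.code (NF.ν m)) with hjdef
  have hj : Computable j := hf.comp hNF
  have hj' : ∀ m, N.ν (j m) = algebraMap F K (NF.ν m) := by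
    intro m
    simp only [hjdef]
    rw [hf', hN']
  have hmain : ∃ ψ : ℕ → ℕ, Computable ψ ∧ ∀ d, ∃ s0, ∀ s, s0 ≤ s → LargeDeg F d (N.ν (ψ s)) := by
    by_cases hcase : ∀ d, ∃ x : K, IsSeparable F x ∧ LargeDeg F d x
    · exact sep_case N NF.ν NF.surj j hj hj' q hcase
    · push Not at hcase
      obtain ⟨D, hD⟩ := hcase
      exact insep_case N NF.ν NF.surj j hj hj' q
        (exists_pow_not_sep q hbig (D := D) hD)
  obtain ⟨ψ, hψ, h⟩ := hmain
  exact ⟨fun n => N.ν (ψ n), hN.comp hψ, h⟩

theorem largeDeg_of_rank {F K : Type*} [Field F] [Field K] [Algebra F K]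
    {d : ℕ} {x : K} (h : (d : Cardinal) < Module.rank F F⟮x⟯) : LargeDeg F d x := by
  intro P hP hd h0
  have hx : IsIntegral F x := (show IsAlgebraic F x from ⟨P, hP, h0⟩).isIntegral
  have : FiniteDimensional F F⟮x⟯ := adjoin.finiteDimensional hx
  have hfr : Module.finrank F F⟮x⟯ ≤ d := by
    rw [adjoin.finrank hx]
    exact (natDegree_le_of_dvd (minpoly.dvd F x h0) hP).trans hd
  rw [← Module.finrank_eq_rank] at h
  exact absurd hfr (by exact_mod_cast not_le.mpr h)

theorem exists_transcendental {F K : Type*} [Field F] [Field K] [Algebra F K]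
    (PF : ComputableField F) (PK : ComputableField K) (hFK : ComputableEmbedding PF PK)
    (C : Set ℕ)
    (hdeg : ∀ n : ℕ, ∃ α : K, (n : Cardinal) < Module.rank F F⟮α⟯) :
    ∃ x : cohesivePower PK C, ∀ q : Polynomial (cohesivePower PF C), q ≠ 0 →
      q.eval₂ (cohesiveMap PF PK hFK C) x ≠ 0 := by
  by_cases halg : Algebra.IsAlgebraic F K
  · obtain ⟨φ, hφ, h⟩ := exists_seq PF PK hFK
      (fun d => (hdeg d).imp fun α hα => largeDeg_of_rank hα)
    have hpc : IsPartialComputable PK C (φ : (almostAll C).Germ K) :=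
      ⟨fun n => Part.some (PK.code (φ n)), hφ.partrec, φ, rfl,
        Filter.Eventually.of_forall fun _ => Part.mem_some _⟩
    refine ⟨⟨_, hpc⟩, transcendental_of_largeDeg hFK C φ hpc fun d => ?_⟩
    obtain ⟨s0, hs0⟩ := h d
    have h1 : ∀ᶠ i in Filter.cofinite, LargeDeg F d (φ i) := by
      rw [Nat.cofinite_eq_atTop]
      exact Filter.eventually_atTop.mpr ⟨s0, hs0⟩
    exact h1.filter_mono inf_le_left
  · rw [Algebra.isAlgebraic_def] at halg
    push Not at halg
    obtain ⟨α, hα⟩ := halg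
    have hpc := isPartialComputable_const PK C α
    refine ⟨⟨_, hpc⟩, transcendental_of_largeDeg hFK C (fun _ => α) hpc fun d => ?_⟩
    apply Filter.Eventually.of_forall
    intro _ P hP _ h0
    exact hα ⟨P, hP, h0⟩

theorem not_powerExtensionAlgebraic {F K : Type*} [Field F] [Field K] [Algebra F K]
    (PF : ComputableField F) (PK : ComputableField K) (hFK : ComputableEmbedding PF PK)
    (C : Set ℕ)
    (hdeg : ∀ n : ℕ, ∃ α : K, (n : Cardinal) < Module.rank F F⟮α⟯) :
    ¬ PowerExtensionAlgebraic PF PK C := by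
  intro hpow
  by_cases halg : Algebra.IsAlgebraic F K
  · obtain ⟨φ, hφ, h⟩ := exists_seq PF PK hFK
      (fun d => (hdeg d).imp fun α hα => largeDeg_of_rank hα)
    have hpc : IsPartialComputable PK C (φ : (almostAll C).Germ K) :=
      ⟨fun n => Part.some (PK.code (φ n)), hφ.partrec, φ, rfl,
        Filter.Eventually.of_forall fun _ => Part.mem_some _⟩
    refine not_algebraicOver_of_largeDeg PF C φ (fun d => ?_) (hpow _ hpc)
    obtain ⟨s0, hs0⟩ := h d
    have h1 : ∀ᶠ i in Filter.cofinite, LargeDeg F d (φ i) := by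
      rw [Nat.cofinite_eq_atTop]
      exact Filter.eventually_atTop.mpr ⟨s0, hs0⟩
    exact h1.filter_mono inf_le_left
  · rw [Algebra.isAlgebraic_def] at halg
    push Not at halg
    obtain ⟨α, hα⟩ := halg
    have hpc := isPartialComputable_const PK C α
    refine not_algebraicOver_of_largeDeg PF C (fun _ => α) (fun d => ?_) (hpow _ hpc)
    apply Filter.Eventually.of_forall
    intro _ P hP _ h0
    exact hα ⟨P, hP, h0⟩

end Pool.Agent.Work.MP_8df50c_lc
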