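import Pool.Agent.Work.MP_8df50c_lc.Defs

set_option autoImplicit false

/-!
The cohesive power as a ring (used for sanity checks and for an equivalent form of the result).
-/

namespace Pool.Agent.Work.MP_8df50c_lc

open Filter

section closure

variable {A : Type*} [Field A] (P : ComputableField A) (C : Set ℕ)

theorem isPartialComputable_const (a : A) :
    IsPartialComputable P C ((fun _ : ℕ => a : ℕ → A) : (almostAll C).Germ A) :=
  ⟨fun _ => Part.some (P.code a), (Computable.const _).partrec, fun _ => a, rfl,
    Filter.Eventually.of_forall fun _ => Part.mem_some _⟩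

theorem isPartialComputable_map₂ {op : A → A → A}
    (hop : ∃ f : ℕ × ℕ → ℕ, Computable f ∧ ∀ x y : A, f (P.code x, P.code y) = P.code (op x y))
    {g h : (almostAll C).Germ A} (hg : IsPartialComputable P C g)
    (hh : IsPartialComputable P C h) : IsPartialComputable P C (Filter.Germ.map₂ op g h) := by
  obtain ⟨f, hf, hf'⟩ := hop
  obtain ⟨p, hp, φ, rfl, hφ⟩ := hg
  obtain ⟨q, hq, ψ, rfl, hψ⟩ := hh
  refine ⟨fun i => (p i).bind fun x => (q i).map fun y => f (x, y), ?_, fun i => op (φ i) (ψ i),
    rfl, ?_⟩
  · refine Partrec.bind hp ?_
    refine Partrec.map (hq.comp Computable.fst) ?_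
    exact (hf.comp (Computable.pair (Computable.snd.comp Computable.fst) Computable.snd))
  · filter_upwards [hφ, hψ] with i h1 h2
    rw [Part.mem_bind_iff]
    refine ⟨_, h1, ?_⟩
    rw [Part.mem_map_iff]
    exact ⟨_, h2, hf' _ _⟩

end closure

/-- The cohesive power `∏_C A`: the classes of the partial computable functions `ω → A` defined at
almost every `i`, two of them being identified if they agree at almost every `i`; the operations
are pointwise. -/
def cohesivePower {A : Type*} [Field A] (P : ComputableField A) (C : Set ℕ) :
    Subring ((almostAll C).Germ A) where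
  carrier := {g | IsPartialComputable P C g}
  one_mem' := isPartialComputable_const P C 1
  zero_mem' := isPartialComputable_const P C 0
  add_mem' := fun {g h} hg hh => isPartialComputable_map₂ P C P.computable_add hg hh
  mul_mem' := fun {g h} hg hh => isPartialComputable_map₂ P C P.computable_mul hg hh
  neg_mem' := fun {g} hg => by
    have h := isPartialComputable_map₂ P C P.computable_mul
      (isPartialComputable_const P C (-1)) hg
    have e : -g = Filter.Germ.map₂ (· * ·)
        ((fun _ : ℕ => (-1 : A) : ℕ → A) : (almostAll C).Germ A) g := by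
      induction g using Filter.Germ.inductionOn with
      | h φ =>
        rw [Filter.Germ.map₂_coe]
        change ((-φ : ℕ → A) : (almostAll C).Germ A) = _
        congr 1
        ext i
        simp
    change IsPartialComputable P C (-g)
    rw [e]
    exact h

/-- The map `∏_C F → ∏_C K` induced pointwise by the embedding `F → K`. -/
def cohesiveMap {F K : Type*} [Field F] [Field K] [Algebra F K] (PF : ComputableField F)
    (PK : ComputableField K) (h : ComputableEmbedding PF PK) (C : Set ℕ) :
    cohesivePower PF C →+* cohesivePower PK C where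
  toFun g := ⟨Filter.Germ.map (algebraMap F K) g.1, by
    obtain ⟨f, hf, hf'⟩ := h
    obtain ⟨g, p, hp, φ, rfl, hφ⟩ := g
    refine ⟨fun i => (p i).map f, hp.map (hf.comp Computable.snd), algebraMap F K ∘ φ, rfl, ?_⟩
    filter_upwards [hφ] with i h1
    rw [Part.mem_map_iff]
    exact ⟨_, h1, hf' _⟩⟩
  map_one' := by
    apply Subtype.ext
    change ((algebraMap F K ∘ (fun _ => 1) : ℕ → K) : (almostAll C).Germ K) = _
    congr 1
    ext i
    simp
  map_zero' := by
    apply Subtype.ext
    change ((algebraMap F K ∘ (fun _ => 0) : ℕ → K) : (almostAll C).Germ K) = _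
    congr 1
    ext i
    simp
  map_add' := by
    rintro ⟨x, hx⟩ ⟨y, hy⟩
    apply Subtype.ext
    induction x using Filter.Germ.inductionOn with
    | h φ =>
      induction y using Filter.Germ.inductionOn with
      | h ψ =>
        change ((algebraMap F K ∘ (φ + ψ) : ℕ → K) : (almostAll C).Germ K) =
          ((algebraMap F K ∘ φ + algebraMap F K ∘ ψ : ℕ → K) : (almostAll C).Germ K)
        congr 1
        ext i
        simp
  map_mul' := by
    rintro ⟨x, hx⟩ ⟨y, hy⟩
    apply Subtype.ext
    induction x using Filter.Germ.inductionOn with
    | h φ =>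
      induction y using Filter.Germ.inductionOn with
      | h ψ =>
        change ((algebraMap F K ∘ (φ * ψ) : ℕ → K) : (almostAll C).Germ K) =
          (((algebraMap F K ∘ φ) * (algebraMap F K ∘ ψ) : ℕ → K) : (almostAll C).Germ K)
        congr 1
        ext i
        simp

end Pool.Agent.Work.MP_8df50c_lc
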