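import Pool.Agent.Work.MP_8df50c_lc.PowerRing

set_option autoImplicit false

namespace Pool.Agent.Work.MP_8df50c_lc

open Polynomial

variable {F K : Type*} [Field F] [Field K] [Algebra F K]

variable (F) in
/-- `x` is not a root of a nonzero polynomial over `F` of degree at most `d`. -/
def LargeDeg (d : ℕ) (x : K) : Prop := ∀ P : F[X], P ≠ 0 → P.natDegree ≤ d → aeval x P ≠ 0

theorem transcendental_of_largeDeg {PF : ComputableField F} {PK : ComputableField K}
    (h : ComputableEmbedding PF PK) (C : Set ℕ) (φ : ℕ → K)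
    (hφ : IsPartialComputable PK C (φ : (almostAll C).Germ K))
    (hd : ∀ d, ∀ᶠ i in almostAll C, LargeDeg F d (φ i)) :
    ∀ q : Polynomial (cohesivePower PF C), q ≠ 0 →
      q.eval₂ (cohesiveMap PF PK h C) ⟨(φ : (almostAll C).Germ K), hφ⟩ ≠ 0 := by
  intro q hq h0
  apply hq
  have hrep : ∀ k, ∃ ψ : ℕ → F, (ψ : (almostAll C).Germ F) = (q.coeff k).1 := by
    intro k
    exact Quotient.exists_rep _
  choose ψ hψ using hrep
  let P : ℕ → F[X] := fun i => ∑ k ∈ Finset.range (q.natDegree + 1), monomial k (ψ k i)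
  have hdeg : ∀ i, (P i).natDegree ≤ q.natDegree := by
    intro i
    apply Polynomial.natDegree_sum_le_of_forall_le
    intro k hk
    exact (Polynomial.natDegree_monomial_le _).trans (by rw [Finset.mem_range] at hk; omega)
  have hmap : ∀ k, (cohesiveMap PF PK h C (q.coeff k)).1 =
      Filter.Germ.coeRingHom (almostAll C) (fun i => algebraMap F K (ψ k i)) := by
    intro k
    change Filter.Germ.map (algebraMap F K) (q.coeff k).1 = _
    rw [← hψ k]
    rfl
  have heval : (Filter.Germ.coeRingHom (almostAll C) (fun i => aeval (φ i) (P i))) = 0 := by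
    have h1 := congrArg Subtype.val h0
    rw [Polynomial.eval₂_eq_sum_range] at h1
    have h2 : (0 : cohesivePower PK C).1 = (0 : (almostAll C).Germ K) := rfl
    rw [h2] at h1
    rw [← h1]
    have h3 : ∀ (s : Finset ℕ) (g : ℕ → cohesivePower PK C), (∑ k ∈ s, g k).1 = ∑ k ∈ s, (g k).1 :=
      fun s g => map_sum (cohesivePower PK C).subtype g s
    rw [h3]
    have h4 : ∀ k, (cohesiveMap PF PK h C (q.coeff k) *
        (⟨(φ : (almostAll C).Germ K), hφ⟩ : cohesivePower PK C) ^ k).1 =
        Filter.Germ.coeRingHom (almostAll C) (fun i => algebraMap F K (ψ k i) * φ i ^ k) := by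
      intro k
      have : (fun i => algebraMap F K (ψ k i) * φ i ^ k) =
        (fun i => algebraMap F K (ψ k i)) * φ ^ k := rfl
      rw [this, map_mul, map_pow, ← hmap]
      rfl
    rw [Finset.sum_congr rfl fun k _ => h4 k, ← map_sum]
    congr 1
    ext i
    simp [P, Polynomial.aeval_monomial]
  have hev : ∀ᶠ i in almostAll C, aeval (φ i) (P i) = 0 :=
    Filter.Germ.coe_eq.mp (heval : ((fun i => aeval (φ i) (P i) : ℕ → K) :
      (almostAll C).Germ K) = ((fun _ => 0 : ℕ → K) : (almostAll C).Germ K))
  have hP : ∀ᶠ i in almostAll C, P i = 0 := by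
    filter_upwards [hev, hd q.natDegree] with i h1 h2
    by_contra h3
    exact h2 _ h3 (hdeg i) h1
  ext k
  by_cases hk : k ≤ q.natDegree
  · have : (q.coeff k).1 = (0 : (almostAll C).Germ F) := by
      rw [← hψ k]
      apply Filter.Germ.coe_eq.mpr
      filter_upwards [hP] with i hi
      have := congrArg (fun p => p.coeff k) hi
      simp only [P, Polynomial.finsetSum_coeff, Polynomial.coeff_monomial, Polynomial.coeff_zero] at this
      rw [Finset.sum_ite_eq'] at this
      rw [if_pos (by rw [Finset.mem_range]; omega)] at this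
      exact this
    simpa using this
  · rw [Polynomial.coeff_eq_zero_of_natDegree_lt (by omega)]
    simp

/-- The version for polynomials over the ring of germs. -/
theorem not_algebraicOver_of_largeDeg (PF : ComputableField F) (C : Set ℕ) (φ : ℕ → K)
    (hd : ∀ d, ∀ᶠ i in almostAll C, LargeDeg F d (φ i)) :
    ¬ AlgebraicOverPower PF C (φ : (almostAll C).Germ K) := by
  rintro ⟨q, hq, hcoef, h0⟩
  apply hq
  have hrep : ∀ k, ∃ ψ : ℕ → F,
      q.coeff k = Filter.Germ.coeRingHom (almostAll C) (fun i => algebraMap F K (ψ i)) := by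
    intro k
    obtain ⟨g, -, hg⟩ := hcoef k
    obtain ⟨ψ, hψ⟩ := Quotient.exists_rep g
    refine ⟨ψ, ?_⟩
    rw [hg, ← hψ]
    rfl
  choose ψ hψ using hrep
  let P : ℕ → F[X] := fun i => ∑ k ∈ Finset.range (q.natDegree + 1), monomial k (ψ k i)
  have hdeg : ∀ i, (P i).natDegree ≤ q.natDegree := by
    intro i
    apply Polynomial.natDegree_sum_le_of_forall_le
    intro k hk
    exact (Polynomial.natDegree_monomial_le _).trans (by rw [Finset.mem_range] at hk; omega)
  have heval : (Filter.Germ.coeRingHom (almostAll C) (fun i => aeval (φ i) (P i))) = 0 := by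
    rw [← h0, Polynomial.eval_eq_sum_range]
    have h4 : ∀ k, q.coeff k * (φ : (almostAll C).Germ K) ^ k =
        Filter.Germ.coeRingHom (almostAll C) (fun i => algebraMap F K (ψ k i) * φ i ^ k) := by
      intro k
      have : (fun i => algebraMap F K (ψ k i) * φ i ^ k) =
        (fun i => algebraMap F K (ψ k i)) * φ ^ k := rfl
      rw [this, map_mul, map_pow, ← hψ]
      rfl
    rw [Finset.sum_congr rfl fun k _ => h4 k, ← map_sum]
    congr 1
    ext i
    simp [P, Polynomial.aeval_monomial]
  have hev : ∀ᶠ i in almostAll C, aeval (φ i) (P i) = 0 :=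
    Filter.Germ.coe_eq.mp (heval : ((fun i => aeval (φ i) (P i) : ℕ → K) :
      (almostAll C).Germ K) = ((fun _ => 0 : ℕ → K) : (almostAll C).Germ K))
  have hP : ∀ᶠ i in almostAll C, P i = 0 := by
    filter_upwards [hev, hd q.natDegree] with i h1 h2
    by_contra h3
    exact h2 _ h3 (hdeg i) h1
  ext k
  by_cases hk : k ≤ q.natDegree
  · rw [hψ k, Polynomial.coeff_zero]
    apply Filter.Germ.coe_eq.mpr
    filter_upwards [hP] with i hi
    have := congrArg (fun p => p.coeff k) hi
    simp only [P, Polynomial.finsetSum_coeff, Polynomial.coeff_monomial,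
      Polynomial.coeff_zero] at this
    rw [Finset.sum_ite_eq'] at this
    rw [if_pos (by rw [Finset.mem_range]; omega)] at this
    simp [this]
  · rw [Polynomial.coeff_eq_zero_of_natDegree_lt (by omega)]
    simp

end Pool.Agent.Work.MP_8df50c_lc
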